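import Pool.Agent.NH39.CG.All

/-!
# MP_3c0a64_an: sets containing a scaled Cantor set around many points

A set of reals which contains a scaled copy of the middle-third Cantor set, centred at `x`, for all
`x` in a set of positive outer Lebesgue measure has positive Hausdorff measure for the gauge
function `ρ exp (A (log (1 / ρ)) ^ (3 / 4))`, `A` an absolute constant; in particular it has
Hausdorff dimension one.
-/

set_option autoImplicit false

open MeasureTheory

namespace Pool.Agent.Results.MP_3c0a64_an.PositiveGaugeMeasure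

/-- the gauge function `ρ exp (A (log (1 / ρ)) ^ (3 / 4))` -/
noncomputable def gauge (A ρ : ℝ) : ℝ := ρ * Real.exp (A * Real.log (1 / ρ) ^ (3 / 4 : ℝ))

/-- `B` contains a scaled copy, centred at `x`, of the middle-third Cantor set, for every `x ∈ E` -/
def Copies (E B : Set ℝ) : Prop :=
  ∀ x ∈ E, ∃ r : ℝ, 0 < r ∧ ∀ c ∈ cantorSet, x + r * (c - 1 / 2) ∈ B

/-- The sums `∑ gauge A (ρ i)` over all covers of `B` by intervals `[a i, a i + ρ i]` of lengths
`0 < ρ i < 1` are bounded from below by a positive number; and the dimension is one. -/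
theorem result : ∃ A : ℝ, 0 < A ∧ ∀ B E : Set ℝ, volume E ≠ 0 → Copies E B →
    (∃ ε : ℝ, 0 < ε ∧ ∀ a ρ : ℕ → ℝ, (∀ i, 0 < ρ i ∧ ρ i < 1) →
      (B ⊆ ⋃ i, Set.Icc (a i) (a i + ρ i)) →
      ENNReal.ofReal ε ≤ ∑' i, ENNReal.ofReal (gauge A (ρ i))) ∧ dimH B = 1 := by
  obtain ⟨A, hA, h⟩ := Pool.Agent.NH39.CG.pos_gauge Pool.Agent.NH39.CG.core_all
  exact ⟨A, hA, fun B E hE hB => ⟨h B E hE hB, Pool.Agent.NH39.CG.dim_one B E hE hB⟩⟩

end Pool.Agent.Results.MP_3c0a64_an.PositiveGaugeMeasure
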